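import Pool.Agent.H7.DInf.Main

set_option autoImplicit false

namespace Pool.Agent.Results.MP_3c0e9a_an.NoDInf

open Pool.Agent.H7.DInf MeasureTheory
open scoped ENNReal

/-- The space `L¹[0,1]` does not have property `(D_∞)`. -/
theorem result : ¬ PropertyD ∞ (Lp ℝ 1 (volume : Measure unitInterval)) :=
  not_propertyD

end Pool.Agent.Results.MP_3c0e9a_an.NoDInf
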